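import Pool.Agent.helper24.TG.S3

set_option linter.all false
set_option autoImplicit false

/-!
# RG1: independent subsets of a fixed small set (MP_ce98d8_co)
-/

namespace Pool.Agent.helper24.TG

open Finset Classical
open Pool.Agent.helper11.Tight (nb eo mem_nb)

theorem RG1 (ha : RG1a_stmt) (hb : RG1b_stmt) : RG1_stmt := by
  intro p P O A V _ _ _ _ _ _ _ _ _ H v T MM v0 hA hT h1 W hW hWc Y k hY hYq hk
  have hLog := p.hLog
  have hLam := p.hLam
  have hLa := p.hLa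
  have hN4 := p.N4
  have hc : 10 ^ 6 ≤ p.c := by nlinarith
  have hB : 1 ≤ p.B := by
    obtain ⟨b, hb'⟩ := p.hBp
    rw [hb']
    exact Nat.one_le_two_pow
  have hc0 : 0 < p.c := by omega
  -- lower bound for `Y`
  have hY1 : p.B * p.La * p.c ^ 7 ≤ Y := by
    have e1 : p.c ^ p.x1 * (p.B * p.La * p.c ^ 7) ≤ p.c ^ p.x1 * Y := by
      calc p.c ^ p.x1 * (p.B * p.La * p.c ^ 7) = p.B * (p.La * p.c ^ (p.kT + 12)) := by
            unfold Par.x1
            ring
        _ ≤ p.B * p.q := Nat.mul_le_mul_left _ hN4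
        _ ≤ p.c ^ p.x1 * Y := hY
    exact Nat.le_of_mul_le_mul_left e1 (pow_pos hc0 _)
  have hc7 : p.c * p.c ≤ p.c ^ 7 := by
    calc p.c * p.c = p.c ^ 2 := by ring
      _ ≤ p.c ^ 7 := Nat.pow_le_pow_right hc0 (by norm_num)
  have hfb : 8 * p.fb ≤ Y := by
    have e2 : 8 * p.fb ≤ p.La * (p.c * p.c) := by
      unfold Par.fb
      have : 16 * p.Lam ≤ p.c := by omega
      calc 8 * (2 * p.c * p.La * p.Lam) = p.La * (p.c * (16 * p.Lam)) := by ring
        _ ≤ p.La * (p.c * p.c) := Nat.mul_le_mul_left _ (Nat.mul_le_mul_left _ this)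
    have e3 : p.La * (p.c * p.c) ≤ p.B * p.La * p.c ^ 7 := by
      calc p.La * (p.c * p.c) ≤ p.La * p.c ^ 7 := Nat.mul_le_mul_left _ hc7
        _ = 1 * (p.La * p.c ^ 7) := (one_mul _).symm
        _ ≤ p.B * (p.La * p.c ^ 7) := Nat.mul_le_mul_right _ hB
        _ = p.B * p.La * p.c ^ 7 := by ring
    omega
  have hfb1 : 1 ≤ p.fb := by
    unfold Par.fb
    have : 0 < 2 * p.c * p.La * p.Lam := by positivity
    omega
  have h16 : 16 * p.B ≤ Y := by
    have e4 : 16 ≤ p.La * p.c ^ 7 := by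
      have : 16 ≤ p.c ^ 7 := by
        calc 16 ≤ p.c * p.c := by nlinarith
          _ ≤ p.c ^ 7 := hc7
      nlinarith
    calc 16 * p.B ≤ (p.La * p.c ^ 7) * p.B := Nat.mul_le_mul_right _ e4
      _ = p.B * p.La * p.c ^ 7 := by ring
      _ ≤ Y := hY1
  set Y2 := (Y + 1) / 2 with hY2
  have hY2a : Y ≤ 2 * Y2 := by omega
  have hY2b : 2 * Y2 ≤ Y + 1 := by omega
  set ka := Y2 - p.fb with hka
  have hka2 : ka + p.fb = Y2 := by omega
  have hka3 : Y ≤ 4 * ka := by omega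
  -- the two cases
  have hA' := ha p P O A V H v T MM v0 hA hT h1 W hW hWc ka
    (by
      calc p.B * p.q ≤ p.c ^ p.x1 * Y := hY
        _ ≤ p.c ^ p.x1 * (4 * ka) := Nat.mul_le_mul_left _ hka3
        _ = 4 * p.c ^ p.x1 * ka := by ring)
    (by omega)
  have hkB : k ≤ p.B * k := Nat.le_mul_of_pos_left _ hB
  have hB' := hb p P O A V H v T MM v0 hA hT W hW hWc Y2 (k + 1)
    (by
      calc p.B * p.q ≤ p.c ^ p.x1 * Y := hY
        _ ≤ p.c ^ p.x1 * (2 * Y2) := Nat.mul_le_mul_left _ hY2a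
        _ = 2 * p.c ^ p.x1 * Y2 := by ring)
    (by
      have e5 : 4 * p.B * (k + 1) = 4 * (p.B * k) + 4 * p.B := by ring
      have e6 : 16 * (p.B * k) ≤ Y := by
        rw [← mul_assoc]
        exact hk
      rw [e5]
      omega)
  set FA := (Psi p H v0).filter (fun φ => ∃ S ⊆ W, (∀ x ∈ S, ∀ y ∈ S, x.1 = y.1 → x = y) ∧
    FInd H v T φ S ∧ ka + p.fb ≤ S.card) with hFA
  set FB := (Psi p H v0).filter (fun φ => ∃ S ⊆ W, (∀ x ∈ S, ∃ y ∈ S, x.1 = y.1 ∧ x ≠ y) ∧
    FInd H v T φ S ∧ Y2 ≤ S.card) with hFB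
  have hsub : (Psi p H v0).filter (fun φ => ∃ S ⊆ W, FInd H v T φ S ∧ Y ≤ S.card) ⊆ FA ∪ FB := by
    intro φ hφ
    rw [Finset.mem_filter] at hφ
    obtain ⟨hφ1, S, hSW, hSI, hSY⟩ := hφ
    set S1 := S.filter (fun x => ∀ y ∈ S, x.1 = y.1 → x = y) with hS1
    set S2 := S.filter (fun x => ¬ ∀ y ∈ S, x.1 = y.1 → x = y) with hS2
    have hcard : S1.card + S2.card = S.card := Finset.card_filter_add_card_filter_not _
    have hsub1 : S1 ⊆ S := Finset.filter_subset _ _
    have hsub2 : S2 ⊆ S := Finset.filter_subset _ _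
    rw [Finset.mem_union]
    by_cases hcase : Y2 ≤ S1.card
    · left
      rw [hFA, Finset.mem_filter]
      refine ⟨hφ1, S1, hsub1.trans hSW, ?_, ?_, by omega⟩
      · intro x hx y hy hxy
        rw [hS1, Finset.mem_filter] at hx
        exact hx.2 y (hsub1 hy) hxy
      · exact fun x hx y hy h => hSI x (hsub1 hx) y (hsub1 hy) h
    · right
      rw [hFB, Finset.mem_filter]
      refine ⟨hφ1, S2, hsub2.trans hSW, ?_, ?_, by omega⟩
      · intro x hx
        rw [hS2, Finset.mem_filter] at hx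
        obtain ⟨hxS, hx2⟩ := hx
        push Not at hx2
        obtain ⟨y, hy, hxy, hne⟩ := hx2
        refine ⟨y, ?_, hxy, hne⟩
        rw [hS2, Finset.mem_filter]
        refine ⟨hy, ?_⟩
        push Not
        exact ⟨x, hxS, hxy.symm, hne.symm⟩
      · exact fun x hx y hy h => hSI x (hsub2 hx) y (hsub2 hy) h
  have hle : ((Psi p H v0).filter (fun φ => ∃ S ⊆ W, FInd H v T φ S ∧ Y ≤ S.card)).card ≤
      FA.card + FB.card := (Finset.card_le_card hsub).trans (Finset.card_union_le _ _)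
  have hA2 : FA.card * 2 ^ (k + 1) ≤ (Psi p H v0).card := by
    refine le_trans (Nat.mul_le_mul_left _ (Nat.pow_le_pow_right (by norm_num) ?_)) hA'
    have e6 : 16 * (p.B * k) ≤ Y := by
      rw [← mul_assoc]
      exact hk
    omega
  have hfin : 2 * (((Psi p H v0).filter (fun φ => ∃ S ⊆ W, FInd H v T φ S ∧
      Y ≤ S.card)).card * 2 ^ k) ≤ 2 * (Psi p H v0).card := by
    calc 2 * (((Psi p H v0).filter (fun φ => ∃ S ⊆ W, FInd H v T φ S ∧
          Y ≤ S.card)).card * 2 ^ k)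
        = ((Psi p H v0).filter (fun φ => ∃ S ⊆ W, FInd H v T φ S ∧
          Y ≤ S.card)).card * 2 ^ (k + 1) := by ring
      _ ≤ (FA.card + FB.card) * 2 ^ (k + 1) := Nat.mul_le_mul_right _ hle
      _ = FA.card * 2 ^ (k + 1) + FB.card * 2 ^ (k + 1) := by ring
      _ ≤ (Psi p H v0).card + (Psi p H v0).card := Nat.add_le_add hA2 hB'
      _ = 2 * (Psi p H v0).card := by ring
  exact Nat.le_of_mul_le_mul_left hfin (by norm_num)

end Pool.Agent.helper24.TG
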