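import Pool.Agent.helper24.TG.S4

set_option linter.all false
set_option autoImplicit false

/-!
# QP2: union bound over the pairs (MP_ce98d8_co)
-/

namespace Pool.Agent.helper24.TG

open Finset Classical
open Pool.Agent.helper11.Tight (nb eo mem_nb)

theorem QP2 (hQP : QP_stmt) : QP2_stmt := by
  intro p P O A V _ _ _ _ _ _ _ _ _ H v T MM v0 hA hT E0 hE0 a h1 h2 h3
  -- the index set of pairs
  let I : Finset (Finset (P × A) × Finset (P × A)) := (E0.powersetCard a) ×ˢ (E0.powersetCard a)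
  let ev : Finset (P × A) × Finset (P × A) → Finset (P → V) := fun r =>
    (Psi p H v0).filter (fun φ => (Disjoint r.1 r.2 ∧
      (∀ x ∈ r.1 ∪ r.2, ∀ y ∈ r.1 ∪ r.2, x.1 = y.1 → x = y) ∧
      (r.2.filter (fun y => 2 * (r.1 \ Gam H v y).card < a)).card ≤ p.c) ∧
      ∀ x ∈ r.1, ∀ y ∈ r.2, T.Adj (φ x.1) (φ y.1) → col H v x y)
  have hsub : (Psi p H v0).filter (fun φ => PairEv p H v T φ E0 a) ⊆ I.biUnion ev := by
    intro φ hφ
    rw [Finset.mem_filter] at hφ
    obtain ⟨hφ1, A1, hA1, A2, hA2, hc1, hc2, hd, hty, hfew, hconf⟩ := hφ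
    rw [Finset.mem_biUnion]
    refine ⟨(A1, A2), ?_, ?_⟩
    · exact Finset.mem_product.2 ⟨Finset.mem_powersetCard.2 ⟨hA1, hc1⟩,
        Finset.mem_powersetCard.2 ⟨hA2, hc2⟩⟩
    · exact Finset.mem_filter.2 ⟨hφ1, ⟨hd, hty, hfew⟩, hconf⟩
  have hone : ∀ r ∈ I, (ev r).card * p.E ^ (a / 4) ≤ (Psi p H v0).card := by
    intro r hr
    obtain ⟨hr1, hr2⟩ := Finset.mem_product.1 hr
    obtain ⟨hs1, hc1⟩ := Finset.mem_powersetCard.1 hr1
    obtain ⟨hs2, hc2⟩ := Finset.mem_powersetCard.1 hr2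
    by_cases hv : Disjoint r.1 r.2 ∧
      (∀ x ∈ r.1 ∪ r.2, ∀ y ∈ r.1 ∪ r.2, x.1 = y.1 → x = y) ∧
      (r.2.filter (fun y => 2 * (r.1 \ Gam H v y).card < a)).card ≤ p.c
    · have := hQP p P O A V H v T MM v0 hA hT r.1 r.2 a (hs1.trans hE0) (hs2.trans hE0) hc1 hc2
        hv.1 hv.2.1 hv.2.2 h1 h2 h3
      refine le_trans (Nat.mul_le_mul_right _ (Finset.card_le_card ?_)) this
      intro φ hφ
      obtain ⟨e1, e2⟩ := Finset.mem_filter.1 hφ
      exact Finset.mem_filter.2 ⟨e1, e2.2⟩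
    · have h0 : ev r = ∅ := by
        apply Finset.filter_eq_empty_iff.2
        intro φ _ hφ
        exact hv hφ.1
      rw [h0]
      simp
  calc ((Psi p H v0).filter (fun φ => PairEv p H v T φ E0 a)).card * p.E ^ (a / 4)
      ≤ (I.biUnion ev).card * p.E ^ (a / 4) := Nat.mul_le_mul_right _ (Finset.card_le_card hsub)
    _ ≤ (∑ r ∈ I, (ev r).card) * p.E ^ (a / 4) :=
        Nat.mul_le_mul_right _ Finset.card_biUnion_le
    _ = ∑ r ∈ I, (ev r).card * p.E ^ (a / 4) := Finset.sum_mul _ _ _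
    _ ≤ ∑ r ∈ I, (Psi p H v0).card := Finset.sum_le_sum hone
    _ = I.card * (Psi p H v0).card := by rw [Finset.sum_const, smul_eq_mul]
    _ = (E0.card).choose a ^ 2 * (Psi p H v0).card := by
        rw [Finset.card_product, Finset.card_powersetCard, pow_two]

end Pool.Agent.helper24.TG
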