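import Pool.Agent.helper43.TG.Spec

set_option autoImplicit false

namespace Pool.Agent.helper43.TG

open scoped RealInnerProductSpace

theorem TEN_map (n : ℕ) (x y : Fin n → ℝ) (s : Multiset (Fin n)) :
    (s.map (fun i => x i * y i)).prod = (s.map x).prod * (s.map y).prod := Multiset.prod_map_mul

theorem t_ten : TEN := by
  intro n p
  classical
  refine ⟨Sym (Fin n) p, inferInstance,
    fun x a => Real.sqrt (a.1.countPerms : ℝ) * (a.1.map (fun i => x i)).prod, ?_, fun x y => ?_⟩
  · rw [Sym.card_sym_eq_choose, Fintype.card_fin]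
  · have h1 : ⟪x, y⟫ = ∑ i, x i * y i := by
      rw [PiLp.inner_apply]
      refine Finset.sum_congr rfl fun i _ => ?_
      simp [mul_comm]
    rw [h1, Finset.sum_pow, Finset.sym_univ]
    refine Finset.sum_congr rfl fun a _ => ?_
    rw [TEN_map]
    have h2 : Real.sqrt (a.1.countPerms : ℝ) * Real.sqrt (a.1.countPerms : ℝ) = (a.1.countPerms : ℝ) :=
      Real.mul_self_sqrt (Nat.cast_nonneg _)
    calc ((a : Multiset (Fin n)).countPerms : ℝ) * (((a : Multiset (Fin n)).map (fun i => x i)).prod *
          ((a : Multiset (Fin n)).map (fun i => y i)).prod)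
        = (Real.sqrt (a.1.countPerms : ℝ) * Real.sqrt (a.1.countPerms : ℝ)) *
          ((a.1.map (fun i => x i)).prod * (a.1.map (fun i => y i)).prod) := by rw [h2]; rfl
      _ = _ := by ring

end Pool.Agent.helper43.TG
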